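import Pool.Agent.Y860.LC.Main
import Pool.Agent.Y860.LC.Sharp

/-!
# Lee's inequality for `m` matrices and arbitrary concave functions

For `m` square complex matrices `A₁, …, A_m` and every concave `f : [0,∞) → [0,∞)`,
`‖f(|A₁ + ⋯ + A_m|)‖₂ ≤ √((1+√m)/2) ‖f(|A₁|) + ⋯ + f(|A_m|)‖₂`, and for every `m` the constant
cannot be replaced by a smaller one: equality occurs for `f(x) = x` and suitable rank one matrices.
The case `m = 2` is Lee's conjecture for the Frobenius norm.

Outline.  `y ↦ f(√y)²` is concave, so it is enough to treat `f(x) = min(x, 1)`.  Let `P_k` be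
`min(|A_k|, 1)`, let `F` be the projection onto the orthogonal complement of the spectral subspaces
of the `|A_k|` for `(1, ∞)`, and `E = 1 - F`.  The left side is at most `tr E + ‖(∑ A_k) F‖²`.  The
mixed terms of `‖(∑ A_k) F‖²` are estimated by the Cauchy-Schwarz inequality, and what remains is
`tr E + ∑ ‖P_k F‖² + c ∑_{k ≠ l} tr (P_k F P_l F) ≤ ∑ ‖P_k‖² + c ∑_{k ≠ l} tr (P_k P_l)` for every
`c ≥ 1`.  Here no pair of indices can be treated alone (the rank of `E` is only bounded by the sum of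
all the `m` multiplicities); the inequality follows from `tr (S E S E) ≥ 2 tr (S E) - tr E` for the
sum `S` of all the `P_k`.
-/

set_option autoImplicit false
open Matrix

namespace Pool.Agent.Results.MP_46ffdd_an.ManyMatrices

open Pool.Agent.Results.MP_46ffdd_an.LeeConcaveFrobenius

theorem frob_abs {n : ℕ} (X : Matrix (Fin n) (Fin n) ℂ) : frob (absM X) = frob X := by
  obtain ⟨h1, h2⟩ := absM_spec X
  unfold frob
  rw [show (absM X)ᴴ = absM X from h1, h2]

theorem cfc_id_abs {n : ℕ} (X : Matrix (Fin n) (Fin n) ℂ) : cfc (id : ℝ → ℝ) (absM X) = absM X := by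
  apply cfc_id
  unfold absM
  exact cfc_predicate _ _

/-- Lee's inequality for `m ≥ 1` matrices: for all `n × n` complex matrices `A 0, …, A (m-1)` and
every concave `f : [0,∞) → [0,∞)` one has
`‖f(|∑ A k|)‖₂ ≤ √((1+√m)/2) ‖∑ f(|A k|)‖₂`; and for every `m ≥ 1` there are `m × m` matrices for
which, with `f(x) = x`, both sides are equal and positive. Here `frob X = (tr X*X)^{1/2}`,
`absM X = (X*X)^{1/2}`, and `cfc f P` is `f(P)`. -/
theorem result :
    (∀ m n : ℕ, 1 ≤ m → ∀ (A : Fin m → Matrix (Fin n) (Fin n) ℂ) (f : ℝ → ℝ),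
      (∀ x, 0 ≤ x → 0 ≤ f x) → ConcaveOn ℝ (Set.Ici 0) f →
        frob (cfc f (absM (∑ k, A k)))
          ≤ Real.sqrt ((1 + Real.sqrt m) / 2) * frob (∑ k, cfc f (absM (A k)))) ∧
    ∀ m : ℕ, 1 ≤ m → ∃ A : Fin m → Matrix (Fin m) (Fin m) ℂ,
      0 < frob (cfc (id : ℝ → ℝ) (absM (∑ k, A k))) ∧
      frob (cfc (id : ℝ → ℝ) (absM (∑ k, A k)))
        = Real.sqrt ((1 + Real.sqrt m) / 2) * frob (∑ k, cfc (id : ℝ → ℝ) (absM (A k))) := by
  refine ⟨fun m n hm A f hf0 hf => Pool.Agent.Y860.LC.lee_many m n hm A f hf0 hf, fun m hm => ?_⟩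
  obtain ⟨A, h1, h2⟩ := Pool.Agent.Y860.LC.sharp m hm
  refine ⟨A, ?_, ?_⟩
  · rw [cfc_id_abs, frob_abs]
    exact h1
  · simp only [cfc_id_abs]
    rw [frob_abs]
    exact h2

end Pool.Agent.Results.MP_46ffdd_an.ManyMatrices
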